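import Pool.Agent.H6.AK.Stmts

/-!
# Assembly of the disproof of the Alon-Krivelevich conjecture (MP_4e8966_co)
-/

set_option autoImplicit false

namespace Pool.Agent.H6.AK

/-- The numeric facts on the parameters. -/
theorem par_num (q n : ℕ) (hq : 4 ≤ q) (hn : 1 ≤ n) :
    1 ≤ 2 * (q * (q + 2)) ^ 2 * n ∧
    (0 : ℝ) < 1 / (2 * ((q * (q + 2) : ℕ) : ℝ)) ∧
    (((q * (q + 2) * n ^ 2 : ℕ) : ℝ)) * (1 / ((2 * (q * (q + 2)) ^ 2 * n : ℕ) : ℝ)) ^ 2 / 4 ≤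
      (1 / (2 * ((q * (q + 2) : ℕ) : ℝ))) ^ 3 ∧
    2 * (1 / (2 * ((q * (q + 2) : ℕ) : ℝ))) * ((q * (q + 2) * n ^ 2 : ℕ) : ℝ) ≤
      ((n ^ 2 : ℕ) : ℝ) := by
  have hQ : 1 ≤ q * (q + 2) := Nat.one_le_iff_ne_zero.mpr (by positivity)
  generalize hQQ : q * (q + 2) = Q at *
  have hQ' : (0 : ℝ) < (Q : ℝ) := by exact_mod_cast hQ
  have hn' : (0 : ℝ) < (n : ℝ) := by exact_mod_cast hn
  refine ⟨?_, by positivity, ?_, ?_⟩
  · exact Nat.one_le_iff_ne_zero.mpr (by positivity)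
  · have e1 : ((Q * n ^ 2 : ℕ) : ℝ) * (1 / ((2 * Q ^ 2 * n : ℕ) : ℝ)) ^ 2 / 4 =
        1 / (16 * (Q : ℝ) ^ 3) := by
      push_cast
      field_simp
      ring
    have e2 : (1 / (2 * (Q : ℝ))) ^ 3 = 1 / (8 * (Q : ℝ) ^ 3) := by
      field_simp
      ring
    rw [e1, e2]
    apply one_div_le_one_div_of_le
    · positivity
    · have : (0 : ℝ) < (Q : ℝ) ^ 3 := by positivity
      linarith
  · apply le_of_eq
    push_cast
    field_simp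

/-- The disproof from the modules. -/
theorem main (hASY : ASYStmt) (hPAR : PARStmt) (hDEG : DEGStmt) (hNOC : NOCStmt) :
    ¬ (∃ c : ℝ, ∀ (V : Type) [Fintype V] (G : SimpleGraph V) [DecidableRel G.Adj],
      G.Colorable 2 → 2 ≤ G.maxDegree →
      ∀ L : V → Finset ℕ,
        (∀ v, c * Real.log (G.maxDegree : ℝ) ≤ ((L v).card : ℝ)) →
        ∃ f : V → ℕ, (∀ v, f v ∈ L v) ∧ ∀ u v, G.Adj u v → f u ≠ f v) := by
  rintro ⟨c, hc⟩
  obtain ⟨q, n, N, hq, hn, hN, hlt, hD⟩ := hASY c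
  obtain ⟨la, lb, hla, hlb, hLA, hLB⟩ := hPAR q n N hq hn hlt
  obtain ⟨hr, hu, h1, h2⟩ := par_num q n hq hn
  classical
  obtain ⟨hcol, hdeg2, hdeg⟩ :=
    hDEG (q * (q + 2) * n ^ 2) N (2 * (q * (q + 2)) ^ 2 * n) hN
  have hcard : ∀ v : Vx (q * (q + 2) * n ^ 2) N, (lst la lb v).card = n ^ 2 := by
    intro v
    unfold lst
    rw [Finset.card_map]
    split_ifs
    · exact hla _ _
    · exact hlb _
  have hf := hc (Vx (q * (q + 2) * n ^ 2) N)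
    (gr (q * (q + 2) * n ^ 2) N (2 * (q * (q + 2)) ^ 2 * n)) hcol hdeg2 (lst la lb) (by
      intro v
      rw [hcard v]
      exact hD _ hdeg2 hdeg)
  exact hNOC (q * (q + 2) * n ^ 2) N (2 * (q * (q + 2)) ^ 2 * n) (n ^ 2) q
    (1 / (2 * ((q * (q + 2) : ℕ) : ℝ))) la lb hr hu h1 h2 hLA hLB hf

end Pool.Agent.H6.AK
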