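import Mathlib

/-!
# Definitions for the disproof of the Alon-Krivelevich conjecture (MP_4e8966_co)
-/

set_option autoImplicit false

namespace Pool.Agent.H6.AK

/-- The weight of the point `x` of the discrete cube for the product measure with parameters `p`. -/
noncomputable def wt {m : ℕ} (p : Fin m → ℝ) (x : Fin m → Bool) : ℝ :=
  ∏ i, if x i = true then p i else 1 - p i

/-- The expectation of `F` for the product measure with parameters `p`. -/
noncomputable def EE {m : ℕ} (p : Fin m → ℝ) (F : (Fin m → Bool) → ℝ) : ℝ :=
  ∑ x, wt p x * F x

/-- The coordinates of `x` which are zero. -/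
def Z {m : ℕ} (x : Fin m → Bool) : Finset (Fin m) := Finset.univ.filter fun i => x i = false

/-- The vertices of the graph: side, location, index of the list. -/
abbrev Vx (m N : ℕ) : Type := Bool × (Fin m → Bool) × Fin N

/-- The graph: vertices on different sides are joined if their locations are close. -/
def gr (m N r : ℕ) : SimpleGraph (Vx m N) where
  Adj u v := u.1 ≠ v.1 ∧ hammingDist u.2.1 v.2.1 ≤ r
  symm := ⟨fun u v h => ⟨fun e => h.1 e.symm, by rw [hammingDist_comm]; exact h.2⟩⟩
  loopless := ⟨fun u h => h.1 rfl⟩

/-- The lists of colours: `la x` are the lists of the vertices of side `true` at `x`, `lb` the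
lists of the vertices of side `false` (the same at all locations). -/
def lst {m N : ℕ} (la : (Fin m → Bool) → Fin N → Finset (Fin m)) (lb : Fin N → Finset (Fin m))
    (v : Vx m N) : Finset ℕ :=
  (if v.1 = true then la v.2.1 v.2.2 else lb v.2.2).map Fin.valEmbedding

end Pool.Agent.H6.AK
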