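import Pool.Agent.H6.AK.Defs

/-!
# Statements of the modules (MP_4e8966_co, disproof)
-/

set_option autoImplicit false

namespace Pool.Agent.H6.AK

/-- GRD: greedy choice of few elements meeting all tests. -/
def GRDStmt : Prop :=
  ∀ (α β : Type) [DecidableEq α] [DecidableEq β] (Om : Finset α) (W : Finset β) (R : β → α → Prop)
    [∀ w a, Decidable (R w a)] (eta : ℝ) (N : ℕ), Om.Nonempty → 0 ≤ eta → eta ≤ 1 →
    (∀ w ∈ W, eta * (Om.card : ℝ) ≤ ((Om.filter fun a => R w a).card : ℝ)) →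
    (W.card : ℝ) * (1 - eta) ^ N < 1 →
    ∃ a : Fin N → α, (∀ t, a t ∈ Om) ∧ ∀ w ∈ W, ∃ t, R w (a t)

/-- RAT: a ratio of binomial coefficients. -/
def RATStmt : Prop :=
  ∀ n w k : ℕ, 1 ≤ n → k ≤ w → w ≤ n →
    (((w + 1 - k : ℕ) : ℝ) / (n : ℝ)) ^ k * ((n.choose k : ℕ) : ℝ) ≤ ((w.choose k : ℕ) : ℝ)

/-- LST: a family of `N` lists of size `k` in `P` such that every set `S` with at most `s` elements
in `P` is disjoint from one of the lists. -/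
def LSTStmt : Prop :=
  ∀ (m N k s : ℕ) (P : Finset (Fin m)) (eta : ℝ), 0 ≤ eta → eta ≤ 1 → s + k ≤ P.card →
    1 ≤ P.card → eta ≤ (((P.card - s + 1 - k : ℕ) : ℝ) / (P.card : ℝ)) ^ k →
    (2 : ℝ) ^ m * (1 - eta) ^ N < 1 →
    ∃ l : Fin N → Finset (Fin m), (∀ t, (l t).card = k ∧ l t ⊆ P) ∧
      ∀ S : Finset (Fin m), (S ∩ P).card ≤ s → ∃ t, Disjoint (l t) S

/-- WTS: basic facts on the product measure. -/
def WTSStmt : Prop :=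
  ∀ (m : ℕ) (p : Fin m → ℝ), (∀ i, 0 ≤ p i ∧ p i ≤ 1) →
    (∀ x, 0 ≤ wt p x) ∧ (∑ x, wt p x = 1) ∧
    (∀ i, EE p (fun x => if x i = true then 1 else 0) = p i) ∧
    (∀ i, EE p (fun x => if x i = false then 1 else 0) = 1 - p i)

/-- VAR: the variance of a function with small differences (Efron-Stein). -/
def VARStmt : Prop :=
  ∀ (m : ℕ) (p : Fin m → ℝ), (∀ i, 0 ≤ p i ∧ p i ≤ 1) → ∀ (F : (Fin m → Bool) → ℝ) (c : ℝ),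
    0 ≤ c → (∀ x y, |F x - F y| ≤ (hammingDist x y : ℝ) * c) →
    EE p (fun x => (F x - EE p F) ^ 2) ≤ (m : ℝ) * c ^ 2 / 4

/-- FIX: the fixed point (Brouwer). -/
def FIXStmt : Prop :=
  ∀ (m : ℕ) (F : Fin m → (Fin m → Bool) → ℝ), (∀ i x, 0 ≤ F i x ∧ F i x ≤ 1) →
    ∃ p : Fin m → ℝ, (∀ i, 0 ≤ p i ∧ p i ≤ 1) ∧ ∀ i, EE p (F i) = p i

/-- LIP: a Lipschitz function separating two sets at distance `> r`. -/
def LIPStmt : Prop :=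
  ∀ (m r : ℕ) (A B : Set (Fin m → Bool)), 1 ≤ r → (∀ x ∈ A, ∀ y ∈ B, r < hammingDist x y) →
    ∃ F : (Fin m → Bool) → ℝ, (∀ x, 0 ≤ F x ∧ F x ≤ 1) ∧ (∀ x ∈ A, F x = 1) ∧ (∀ x ∈ B, F x = 0) ∧
      ∀ x y, |F x - F y| ≤ (hammingDist x y : ℝ) * (1 / (r : ℝ))

/-- ONE: one coordinate. -/
def ONEStmt : Prop :=
  ∀ (m : ℕ) (p : Fin m → ℝ), (∀ i, 0 ≤ p i ∧ p i ≤ 1) → ∀ (F : (Fin m → Bool) → ℝ) (c u : ℝ)
    (i : Fin m), 0 ≤ c → 0 < u → (∀ x y, |F x - F y| ≤ (hammingDist x y : ℝ) * c) →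
    EE p F = p i → (m : ℝ) * c ^ 2 / 4 ≤ u ^ 3 →
    EE p (fun x => if x i = false ∧ F x = 1 then 1 else 0) ≤ u ∧
    EE p (fun x => if x i = true ∧ F x = 0 then 1 else 0) ≤ u

/-- LOC: a location which agrees with the state up to few coordinates. -/
def LOCStmt : Prop :=
  ∀ (m r : ℕ) (SA SB : (Fin m → Bool) → Finset (Fin m)) (u : ℝ), 1 ≤ r → 0 < u →
    (∀ x y, hammingDist x y ≤ r → Disjoint (SA x) (SB y)) →
    (m : ℝ) * (1 / (r : ℝ)) ^ 2 / 4 ≤ u ^ 3 →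
    ∃ x : Fin m → Bool, ((SA x ∩ Z x).card : ℝ) + ((SB x \ Z x).card : ℝ) ≤ 2 * u * m

/-- BAL: the number of points of a Hamming ball. -/
def BALStmt : Prop :=
  ∀ (m r : ℕ) (x : Fin m → Bool),
    (Finset.univ.filter fun y : Fin m → Bool => hammingDist x y ≤ r).card ≤ (m + 1) ^ r

/-- DEG: the degrees of the graph. -/
def DEGStmt : Prop :=
  ∀ (m N r : ℕ) [DecidableRel (gr m N r).Adj], 2 ≤ N →
    (gr m N r).Colorable 2 ∧ 2 ≤ (gr m N r).maxDegree ∧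
      (gr m N r).maxDegree ≤ (m + 1) ^ r * N

/-- NOC: there is no colouring from the lists. -/
def NOCStmt : Prop :=
  ∀ (m N r k q : ℕ) (u : ℝ) (la : (Fin m → Bool) → Fin N → Finset (Fin m))
    (lb : Fin N → Finset (Fin m)), 1 ≤ r → 0 < u → (m : ℝ) * (1 / (r : ℝ)) ^ 2 / 4 ≤ u ^ 3 →
    2 * u * m ≤ (k : ℝ) →
    (∀ x, q * k ≤ (Z x).card → (∀ t, la x t ⊆ Z x) ∧
      ∀ S : Finset (Fin m), (S ∩ Z x).card ≤ k → ∃ t, Disjoint (la x t) S) →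
    (∀ S : Finset (Fin m), S.card ≤ (q + 1) * k → ∃ t, Disjoint (lb t) S) →
    ¬ ∃ f : Vx m N → ℕ, (∀ v, f v ∈ lst la lb v) ∧ ∀ v w, (gr m N r).Adj v w → f v ≠ f w

/-- ASY: the choice of the parameters. -/
def ASYStmt : Prop :=
  ∀ c : ℝ, ∃ q n N : ℕ, 4 ≤ q ∧ 1 ≤ n ∧ 2 ≤ N ∧
    (2 : ℝ) ^ (q * (q + 2) * n ^ 2) * (1 - (1 - 2 / (q : ℝ)) ^ (n ^ 2)) ^ N < 1 ∧
    ∀ D : ℕ, 2 ≤ D → D ≤ (q * (q + 2) * n ^ 2 + 1) ^ (2 * (q * (q + 2)) ^ 2 * n) * N →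
      c * Real.log (D : ℝ) ≤ ((n ^ 2 : ℕ) : ℝ)

/-- PAR: the lists with the parameters chosen. -/
def PARStmt : Prop :=
  ∀ q n N : ℕ, 4 ≤ q → 1 ≤ n →
    (2 : ℝ) ^ (q * (q + 2) * n ^ 2) * (1 - (1 - 2 / (q : ℝ)) ^ (n ^ 2)) ^ N < 1 →
    ∃ (la : (Fin (q * (q + 2) * n ^ 2) → Bool) → Fin N → Finset (Fin (q * (q + 2) * n ^ 2)))
      (lb : Fin N → Finset (Fin (q * (q + 2) * n ^ 2))),
      (∀ x t, (la x t).card = n ^ 2) ∧ (∀ t, (lb t).card = n ^ 2) ∧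
      (∀ x, q * n ^ 2 ≤ (Z x).card → (∀ t, la x t ⊆ Z x) ∧
        ∀ S : Finset (Fin (q * (q + 2) * n ^ 2)), (S ∩ Z x).card ≤ n ^ 2 →
          ∃ t, Disjoint (la x t) S) ∧
      (∀ S : Finset (Fin (q * (q + 2) * n ^ 2)), S.card ≤ (q + 1) * n ^ 2 →
        ∃ t, Disjoint (lb t) S)

end Pool.Agent.H6.AK
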